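import Pool.Agent.Work.MP_40574a_nt.Main
import Pool.Agent.Work.Shared.PNT.Tauber

/-!
# MP_40574a_nt: one prime condition, for all large `n`

Every sufficiently large `n` with `4 ∤ n` has at least `0.18 √n / log n` prime values
`p = x + 2y + 5z` over the representations `n = x² + y² + z² + w²` with `x, y, z, w ∈ ℕ`.
-/

set_option autoImplicit false

namespace Pool.Agent.Results.MP_40574a_nt.PrimeValues

open Pool.Agent.Work.MP_40574a_nt Finset

/-- primes in the window -/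
lemma many_primes : ∃ n₀ : ℕ, ∀ n : ℕ, n₀ ≤ n → ∃ T : Finset ℕ,
    0.18 * Real.sqrt n / Real.log n ≤ (T.card : ℝ) ∧ ∀ p ∈ T, p.Prime ∧ 5 < p ∧
      29 * n ≤ p ^ 2 ∧ p ^ 2 ≤ 30 * n := by
  obtain ⟨C, hC, hθ⟩ := Pool.Agent.Work.Shared.PNT.theta_sub_self_le 1
  have h29 : Real.sqrt 29 ≤ 5.3852 := by
    rw [Real.sqrt_le_left (by norm_num)]; norm_num
  have h30 : (5.4772 : ℝ) ≤ Real.sqrt 30 := Real.le_sqrt_of_sq_le (by norm_num)
  have h29' : (5 : ℝ) ≤ Real.sqrt 29 := Real.le_sqrt_of_sq_le (by norm_num)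
  have h30' : Real.sqrt 30 ≤ 6 := by
    rw [Real.sqrt_le_left (by norm_num)]; norm_num
  set tt := max 8000 (100000 * C) with htt
  refine ⟨⌈Real.exp tt⌉₊, fun n hn => ?_⟩
  have hnexp : Real.exp tt ≤ n := (Nat.le_ceil _).trans (by exact_mod_cast hn)
  have hn0 : (0 : ℝ) < n := (Real.exp_pos _).trans_le hnexp
  set t := Real.log n with ht
  have hett : tt ≤ t := by rw [ht, Real.le_log_iff_exp_le hn0]; exact hnexp
  have ht8 : 8000 ≤ t := (le_max_left _ _).trans hett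
  have htC : 100000 * C ≤ t := (le_max_right _ _).trans hett
  set s := Real.sqrt n with hs
  have hspos : 0 < s := Real.sqrt_pos.2 hn0
  have hslog : Real.log s = t / 2 := by rw [hs, Real.log_sqrt hn0.le]
  have hs1 : 4000 ≤ s := by
    have h1 : Real.log s + 1 ≤ s := by
      have := Real.add_one_le_exp (Real.log s)
      rwa [Real.exp_log hspos] at this
    linarith
  set X := Real.sqrt 29 * s with hX
  set Y := Real.sqrt 30 * s with hY
  have hXY : X ≤ Y := by rw [hX, hY]; nlinarith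
  have hX2 : 2 ≤ X := by nlinarith
  have hY2 : 2 ≤ Y := hX2.trans hXY
  have hXs : s ≤ X := by nlinarith
  have hYs : s ≤ Y := by nlinarith
  have hX6 : X ≤ 6 * s := by nlinarith
  have hY6 : Y ≤ 6 * s := by nlinarith
  refine ⟨(Ioc ⌊X⌋₊ ⌊Y⌋₊).filter Nat.Prime, ?_, ?_⟩
  · -- lower bound through theta
    have hdiff : Chebyshev.theta Y - Chebyshev.theta X =
        ∑ p ∈ (Ioc ⌊X⌋₊ ⌊Y⌋₊).filter Nat.Prime, Real.log p := by
      rw [Chebyshev.theta_eq_sum_Icc, Chebyshev.theta_eq_sum_Icc]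
      have h1 : (Icc 0 ⌊Y⌋₊).filter Nat.Prime =
          (Icc 0 ⌊X⌋₊).filter Nat.Prime ∪ (Ioc ⌊X⌋₊ ⌊Y⌋₊).filter Nat.Prime := by
        have hfl := Nat.floor_le_floor hXY
        ext p
        simp only [mem_filter, mem_Icc, mem_union, mem_Ioc]
        constructor
        · rintro ⟨⟨_, h⟩, hp⟩
          rcases le_or_gt p ⌊X⌋₊ with h' | h'
          · exact Or.inl ⟨⟨Nat.zero_le _, h'⟩, hp⟩
          · exact Or.inr ⟨⟨h', h⟩, hp⟩
        · rintro (⟨⟨_, h⟩, hp⟩ | ⟨⟨_, h⟩, hp⟩)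
          · exact ⟨⟨Nat.zero_le _, by omega⟩, hp⟩
          · exact ⟨⟨Nat.zero_le _, h⟩, hp⟩
      rw [h1, sum_union]
      · ring
      · rw [disjoint_left]
        intro p hp hp'
        simp only [mem_filter, mem_Icc, mem_Ioc] at hp hp'
        omega
    have hup : ∑ p ∈ (Ioc ⌊X⌋₊ ⌊Y⌋₊).filter Nat.Prime, Real.log p ≤
        (((Ioc ⌊X⌋₊ ⌊Y⌋₊).filter Nat.Prime).card : ℝ) * (t / 2 + 2) := by
      have h1 : ∀ p ∈ (Ioc ⌊X⌋₊ ⌊Y⌋₊).filter Nat.Prime, Real.log p ≤ t / 2 + 2 := by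
        intro p hp
        rw [mem_filter, mem_Ioc] at hp
        have h2 : (p : ℝ) ≤ Y := (Nat.le_floor_iff (by linarith)).1 hp.1.2
        have h3 : (0 : ℝ) < p := by exact_mod_cast hp.2.pos
        calc Real.log p ≤ Real.log (6 * s) := Real.log_le_log h3 (h2.trans hY6)
          _ = Real.log 6 + t / 2 := by rw [Real.log_mul (by norm_num) hspos.ne', hslog]
          _ ≤ _ := by
              have h4 : Real.log 6 ≤ 2 := by
                rw [Real.log_le_iff_le_exp (by norm_num)]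
                have h5 : Real.exp 2 = Real.exp 1 * Real.exp 1 := by
                  rw [← Real.exp_add]; norm_num
                have h6 := Real.exp_one_gt_d9
                rw [h5]
                calc (6 : ℝ) ≤ 2.7182818283 * 2.7182818283 := by norm_num
                  _ ≤ _ := by gcongr
              linarith
      have := sum_le_card_nsmul _ _ _ h1
      rwa [nsmul_eq_mul] at this
    have hbX := (abs_le.1 (hθ X hX2)).2
    have hbY := (abs_le.1 (hθ Y hY2)).1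
    rw [Real.rpow_one] at hbX hbY
    have hlX : t / 2 ≤ Real.log X := by rw [← hslog]; exact Real.log_le_log hspos hXs
    have hlY : t / 2 ≤ Real.log Y := by rw [← hslog]; exact Real.log_le_log hspos hYs
    have herr : ∀ Z : ℝ, Z ≤ 6 * s → 0 ≤ Z → t / 2 ≤ Real.log Z →
        C * Z / Real.log Z ≤ 0.0002 * s := by
      intro Z hZ hZ0 hlZ
      have h1 : 0 < Real.log Z := by linarith
      rw [div_le_iff₀ h1]
      calc C * Z ≤ C * (6 * s) := by gcongr
        _ = (6 * C) * s := by ring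
        _ ≤ (0.0002 * (t / 2)) * s := by
            have : 6 * C ≤ 0.0002 * (t / 2) := by linarith
            gcongr
        _ ≤ (0.0002 * Real.log Z) * s := by gcongr
        _ = 0.0002 * s * Real.log Z := by ring
    have e1 := herr X hX6 (by linarith) hlX
    have e2 := herr Y hY6 (by linarith) hlY
    have hYX : 0.092 * s ≤ Y - X := by
      rw [hX, hY, ← sub_mul]
      have : (0.092 : ℝ) ≤ Real.sqrt 30 - Real.sqrt 29 := by linarith
      gcongr
    have htot : 0.0915 * s ≤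
        (((Ioc ⌊X⌋₊ ⌊Y⌋₊).filter Nat.Prime).card : ℝ) * (t / 2 + 2) := by
      linarith
    rw [div_le_iff₀ (by linarith)]
    have hcard : (0 : ℝ) ≤ (((Ioc ⌊X⌋₊ ⌊Y⌋₊).filter Nat.Prime).card : ℝ) := Nat.cast_nonneg _
    have h7 : t / 2 + 2 ≤ (0.0915 / 0.18) * t := by
      norm_num
      linarith
    have h8 := mul_le_mul_of_nonneg_left h7 hcard
    have h9 := htot.trans h8
    norm_num at h9 ⊢
    linarith
  · intro p hp
    rw [mem_filter, mem_Ioc] at hp
    obtain ⟨⟨h1, h2⟩, hpp⟩ := hp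
    have h3 : X < p := (Nat.floor_lt (by linarith)).1 h1
    have h4 : (p : ℝ) ≤ Y := (Nat.le_floor_iff (by linarith)).1 h2
    have hss : s ^ 2 = n := Real.sq_sqrt hn0.le
    have hX' : X ^ 2 = 29 * n := by
      rw [hX, mul_pow, Real.sq_sqrt (by norm_num), hss]
    have hY' : Y ^ 2 = 30 * n := by
      rw [hY, mul_pow, Real.sq_sqrt (by norm_num), hss]
    have h5 : (29 : ℝ) * n ≤ (p : ℝ) ^ 2 := by
      rw [← hX']; gcongr
    have h6 : (p : ℝ) ^ 2 ≤ 30 * n := by
      rw [← hY']; gcongr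
    refine ⟨hpp, ?_, by exact_mod_cast h5, by exact_mod_cast h6⟩
    have : (5 : ℝ) < p := by linarith
    exact_mod_cast this

theorem result : ∃ n₀ : ℕ, ∀ n : ℕ, n₀ ≤ n → ¬ 4 ∣ n →
    ∃ T : Finset ℕ, 0.18 * Real.sqrt n / Real.log n ≤ (T.card : ℝ) ∧
      ∀ p ∈ T, p.Prime ∧
        ∃ x y z w : ℕ, n = x ^ 2 + y ^ 2 + z ^ 2 + w ^ 2 ∧ x + 2 * y + 5 * z = p := by
  obtain ⟨n₀, h⟩ := many_primes
  refine ⟨n₀, fun n hn h4 => ?_⟩
  obtain ⟨T, hT, hT'⟩ := h n hn
  refine ⟨T, hT, fun p hp => ?_⟩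
  obtain ⟨hpp, hp5, h29, h30⟩ := hT' p hp
  refine ⟨hpp, ?_⟩
  have h2 : p % 2 = 1 := by
    rcases hpp.eq_two_or_odd with h | h
    · omega
    · exact h
  have h3 : p % 3 ≠ 0 := by
    intro h
    have := (Nat.prime_dvd_prime_iff_eq Nat.prime_three hpp).1 (Nat.dvd_of_mod_eq_zero h)
    omega
  have h5 : p % 5 ≠ 0 := by
    intro h
    have := (Nat.prime_dvd_prime_iff_eq Nat.prime_five hpp).1 (Nat.dvd_of_mod_eq_zero h)
    omega
  have hleZ : (p : ℤ) ^ 2 ≤ 30 * n := by exact_mod_cast h30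
  obtain ⟨x, y, z, w, e1, e2, e3⟩ := main_int (n : ℤ) (p : ℤ) (by omega) (by omega) (by omega)
    (by omega) hleZ
  have h29' : 29 * (n : ℤ) ≤ (p : ℤ) ^ 2 := by exact_mod_cast h29
  obtain ⟨hx, hy, hz⟩ := nonneg_of_range e1 e2 (by omega) h29'
  lift x to ℕ using hx
  lift y to ℕ using hy
  lift z to ℕ using hz
  lift w to ℕ using e3
  exact ⟨x, y, z, w, by exact_mod_cast e1, by exact_mod_cast e2⟩

end Pool.Agent.Results.MP_40574a_nt.PrimeValues
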